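import Pool.Agent.U196.SH.Vis

/-!
# Project GP (helper196): sets which carry a positive share of the mean square of every Dirichlet polynomial
-/

set_option autoImplicit false

namespace Pool.Agent.U196.GP

open Filter Topology MeasureTheory Complex
open Pool.Agent.Q97.UM
open Pool.Agent.U196.SH

noncomputable section

/-- the mass hypothesis for a family of sets -/
def HG (S : ℝ → Set ℝ) (θ c : ℝ) : Prop := ∀ᶠ T : ℝ in atTop, ∀ N : ℕ, (N : ℝ) ≤ T ^ θ → ∀ b : ℕ → ℂ,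
  c * (T * N2 N b) ≤ ∫ t in S T, ‖dp N b t‖ ^ 2

variable {S : ℝ → Set ℝ} {θ₁ c₀ : ℝ}

lemma HG.hv (h : HG S θ₁ c₀) : HV (fun _ : Sg => S) θ₁ c₀ := h.mono fun _ hT _ => hT

/-- an index -/
def i1 : Sg := ⟨1, Or.inl rfl⟩

/-- lower bounds for all real moments -/
theorem momGl (hθ₁ : 0 < θ₁) (hc₀ : 0 < c₀) (hSm : ∀ T, MeasurableSet (S T)) (hSs : ∀ T, S T ⊆ Set.Icc T (2 * T))
    (hm : HG S θ₁ c₀) {A : ℝ} (hA : 1 ≤ A) :
    ∃ c : ℝ, 0 < c ∧ ∀ᶠ T : ℝ in atTop, ∀ k : ℝ, |k| ≤ A →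
      ENNReal.ofReal (c * (T * Real.log T ^ (k ^ 2))) ≤ ∫⁻ t in S T, ENNReal.ofReal (‖zt t‖ ^ (2 * k)) := by
  obtain ⟨θ, c, hθ, hc, h⟩ := lowerV hθ₁ hc₀ (fun _ T => hSm T) (fun _ T => hSs T) hm.hv hA
  obtain ⟨C, hC, hp⟩ := pred_cmp A
  refine ⟨c * c / C, by positivity, ?_⟩
  filter_upwards [h, hp, eventually_ge_atTop 16] with T h1 hp hT k hk
  obtain ⟨M, e, hM, e1, h2⟩ := h1 1 (fun _ => k) (fun _ => 0) (by simpa using hk) (fun _ => by rw [abs_zero]; linarith)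
  have h3 := h2 i1 1 (by rw [Nat.cast_one]; exact Real.one_le_rpow (by linarith) hθ.le) d1
  simp only [dp_d1, norm_one, one_pow, mul_one, Finset.univ_unique, Finset.prod_singleton, add_zero] at h3
  refine le_trans (ENNReal.ofReal_le_ofReal ?_) h3
  obtain ⟨p1, -⟩ := hp k hk
  calc c * c / C * (T * Real.log T ^ (k ^ 2)) ≤ c * c / C * (T * (C * UM.pred T (fun _ : Fin 1 => k) (fun _ => 0))) := by
        refine mul_le_mul_of_nonneg_left (mul_le_mul_of_nonneg_left p1 (by linarith)) (by positivity)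
    _ = c * (c * (T * UM.pred T (fun _ : Fin 1 => k) (fun _ => 0))) := by field_simp
    _ ≤ c * ∫ t in T..(2 * T), ‖dp M e t‖ ^ 2 := mul_le_mul_of_nonneg_left e1 hc.le

/-- lower bounds for the nonnegative moments, as integrals -/
theorem momG (hθ₁ : 0 < θ₁) (hc₀ : 0 < c₀) (hSm : ∀ T, MeasurableSet (S T)) (hSs : ∀ T, S T ⊆ Set.Icc T (2 * T))
    (hm : HG S θ₁ c₀) {A : ℝ} (hA : 1 ≤ A) :
    ∃ c : ℝ, 0 < c ∧ ∀ᶠ T : ℝ in atTop, ∀ k : ℝ, 0 ≤ k → k ≤ A →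
      c * (T * Real.log T ^ (k ^ 2)) ≤ ∫ t in S T, ‖zt t‖ ^ (2 * k) := by
  obtain ⟨c, hc, h⟩ := momGl hθ₁ hc₀ hSm hSs hm hA
  refine ⟨c, hc, ?_⟩
  filter_upwards [h] with T h1 k hk0 hk
  have h3 := h1 k (by rw [abs_of_nonneg hk0]; exact hk)
  have hnn : ∀ t, 0 ≤ ‖zt t‖ ^ (2 * k) := fun t => by positivity
  have hcont : Continuous fun t => ‖zt t‖ ^ (2 * k) := UM.continuous_zt.norm.rpow_const fun t => Or.inr (by linarith)
  have hint : IntegrableOn (fun t => ‖zt t‖ ^ (2 * k)) (S T) := (hcont.integrableOn_Icc).mono_set (hSs T)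
  rwa [← ofReal_integral_eq_lintegral_ofReal hint (Eventually.of_forall hnn),
    ENNReal.ofReal_le_ofReal_iff (integral_nonneg hnn)] at h3

/-- **large deviations** -/
theorem ldG (hθ₁ : 0 < θ₁) (hc₀ : 0 < c₀) (hSm : ∀ T, MeasurableSet (S T)) (hSs : ∀ T, S T ⊆ Set.Icc T (2 * T))
    (hm : HG S θ₁ c₀) {κ ε : ℝ} (hκ : 0 ≤ κ) (hκ1 : κ < 1) (hε : 0 < ε) : ∀ᶠ T : ℝ in atTop,
    ENNReal.ofReal (T * Real.log T ^ (-κ ^ 2 - ε)) ≤ volume {t : ℝ | t ∈ S T ∧ Real.log T ^ κ ≤ ‖zt t‖} := by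
  obtain ⟨c, hc, hlow⟩ := momG hθ₁ hc₀ hSm hSs hm (le_refl (1 : ℝ))
  obtain ⟨C, hC, hup⟩ := upperV
  set δ : ℝ := min (ε / 14) ((1 - κ) / 2) with hδd
  have hδ : 0 < δ := by
    have : 0 < 1 - κ := by linarith
    positivity
  have hδε : δ ≤ ε / 14 := min_le_left _ _
  have hδκ : δ ≤ (1 - κ) / 2 := min_le_right _ _
  have hg1 : ∀ᶠ T : ℝ in atTop, 4 * C / c ≤ Real.log T ^ (δ ^ 2) :=
    Real.tendsto_log_atTop.eventually ((tendsto_rpow_atTop (by positivity)).eventually_ge_atTop _)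
  have hg2 : ∀ᶠ T : ℝ in atTop, 2 / c ≤ Real.log T ^ (ε / 2) :=
    Real.tendsto_log_atTop.eventually ((tendsto_rpow_atTop (by positivity)).eventually_ge_atTop _)
  filter_upwards [hlow, hup, hg1, hg2, eventually_ge_atTop 16] with T hlow hup hg1 hg2 hT
  have hT0 : 0 < T := by linarith
  have hTT : T ≤ 2 * T := by linarith
  have hL1 : 1 ≤ Real.log T := by
    rw [Real.le_log_iff_exp_le hT0]
    have := Real.exp_one_lt_d9
    linarith
  set L := Real.log T with hLd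
  have hL : 0 < L := by linarith
  set k := κ + δ with hk
  have a1 := hlow k (by linarith) (by linarith)
  have a2 := hup κ hκ hκ1.le
  have a3 := hup (κ + 2 * δ) (by linarith) (by linarith)
  set S := S T with hS
  have hSI : S ⊆ Set.Icc T (2 * T) := hSs T
  set E : Set ℝ := {t : ℝ | t ∈ S ∧ L ^ κ ≤ ‖zt t‖} with hE
  have hEm : MeasurableSet E := (hSm T).inter (measurableSet_le measurable_const zt_meas.norm)
  have hES : E ⊆ S := fun t ht => ht.1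
  have hvol : volume E ≠ ⊤ := ((measure_mono (hES.trans hSI)).trans_lt (by rw [Real.volume_Icc]; exact ENNReal.ofReal_lt_top)).ne
  have hcont : ∀ r : ℝ, 0 ≤ r → Continuous fun t => ‖zt t‖ ^ r := fun r hr => UM.continuous_zt.norm.rpow_const fun t => Or.inr hr
  have hi : ∀ r : ℝ, 0 ≤ r → IntegrableOn (fun t => ‖zt t‖ ^ r) S := fun r hr => ((hcont r hr).integrableOn_Icc).mono_set hSI
  have hmono : ∀ r : ℝ, 0 ≤ r → ∫ t in S, ‖zt t‖ ^ r ≤ ∫ t in T..(2 * T), ‖zt t‖ ^ r := by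
    intro r hr
    rw [intervalIntegral.integral_of_le hTT, ← integral_Icc_eq_integral_Ioc]
    exact setIntegral_mono_set ((hcont r hr).integrableOn_Icc) (Eventually.of_forall fun t => by simp only [Pi.zero_apply]; positivity)
      (Eventually.of_forall hSI)
  -- the pointwise inequality
  have hpt : ∀ t ∈ S, ‖zt t‖ ^ (2 * k) ≤ E.indicator (fun _ => L ^ (2 * k * (κ + 2 * δ))) t +
      (L ^ (2 * δ * κ) * ‖zt t‖ ^ (2 * κ) + L ^ (-(2 * δ * (κ + 2 * δ))) * ‖zt t‖ ^ (2 * (κ + 2 * δ))) := by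
    intro t ht
    have hz : 0 ≤ ‖zt t‖ := norm_nonneg _
    have q1 : 0 ≤ E.indicator (fun _ => L ^ (2 * k * (κ + 2 * δ))) t := Set.indicator_nonneg (fun _ _ => by positivity) t
    have q2 : 0 ≤ L ^ (2 * δ * κ) * ‖zt t‖ ^ (2 * κ) := by positivity
    have q3 : 0 ≤ L ^ (-(2 * δ * (κ + 2 * δ))) * ‖zt t‖ ^ (2 * (κ + 2 * δ)) := by positivity
    rcases lt_or_ge ‖zt t‖ (L ^ κ) with h | h
    · have h5 : ‖zt t‖ ^ (2 * k) ≤ L ^ (2 * δ * κ) * ‖zt t‖ ^ (2 * κ) := by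
        rcases eq_or_lt_of_le hz with h0 | h0
        · rw [← h0, Real.zero_rpow (by positivity)]
          positivity
        · have e1 : ‖zt t‖ ^ (2 * k) = ‖zt t‖ ^ (2 * δ) * ‖zt t‖ ^ (2 * κ) := by
            rw [← Real.rpow_add h0]; congr 1; rw [hk]; ring
          rw [e1]
          refine mul_le_mul_of_nonneg_right ?_ (by positivity)
          calc ‖zt t‖ ^ (2 * δ) ≤ (L ^ κ) ^ (2 * δ) := Real.rpow_le_rpow hz h.le (by positivity)
            _ = L ^ (2 * δ * κ) := by rw [← Real.rpow_mul hL.le]; congr 1; ring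
      linarith
    · have hEt : t ∈ E := ⟨ht, h⟩
      rcases le_or_gt ‖zt t‖ (L ^ (κ + 2 * δ)) with h' | h'
      · have h5 : ‖zt t‖ ^ (2 * k) ≤ L ^ (2 * k * (κ + 2 * δ)) := by
          calc ‖zt t‖ ^ (2 * k) ≤ (L ^ (κ + 2 * δ)) ^ (2 * k) := Real.rpow_le_rpow hz h' (by positivity)
            _ = _ := by rw [← Real.rpow_mul hL.le]; congr 1; ring
        rw [Set.indicator_of_mem hEt]
        linarith
      · have hz0 : 0 < ‖zt t‖ := lt_trans (by positivity) h'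
        have h5 : ‖zt t‖ ^ (2 * k) ≤ L ^ (-(2 * δ * (κ + 2 * δ))) * ‖zt t‖ ^ (2 * (κ + 2 * δ)) := by
          have e1 : ‖zt t‖ ^ (2 * (κ + 2 * δ)) = ‖zt t‖ ^ (2 * k) * ‖zt t‖ ^ (2 * δ) := by
            rw [← Real.rpow_add hz0]; congr 1; rw [hk]; ring
          have e2 : L ^ (2 * δ * (κ + 2 * δ)) ≤ ‖zt t‖ ^ (2 * δ) := by
            calc L ^ (2 * δ * (κ + 2 * δ)) = (L ^ (κ + 2 * δ)) ^ (2 * δ) := by rw [← Real.rpow_mul hL.le]; congr 1; ring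
              _ ≤ _ := Real.rpow_le_rpow (by positivity) h'.le (by positivity)
          have e3 : L ^ (-(2 * δ * (κ + 2 * δ))) * L ^ (2 * δ * (κ + 2 * δ)) = 1 := by
            rw [← Real.rpow_add hL]; simp
          rw [e1]
          calc ‖zt t‖ ^ (2 * k) = ‖zt t‖ ^ (2 * k) * (L ^ (-(2 * δ * (κ + 2 * δ))) * L ^ (2 * δ * (κ + 2 * δ))) := by
                rw [e3, mul_one]
            _ ≤ ‖zt t‖ ^ (2 * k) * (L ^ (-(2 * δ * (κ + 2 * δ))) * ‖zt t‖ ^ (2 * δ)) := by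
                refine mul_le_mul_of_nonneg_left (mul_le_mul_of_nonneg_left e2 (by positivity)) (by positivity)
            _ = _ := by ring
        linarith
  have hind : ∫ t in S, E.indicator (fun _ => L ^ (2 * k * (κ + 2 * δ))) t = (volume E).toReal * L ^ (2 * k * (κ + 2 * δ)) := by
    rw [setIntegral_indicator hEm, Set.inter_eq_self_of_subset_right hES, setIntegral_const, smul_eq_mul]
    rfl
  have hindi : IntegrableOn (E.indicator (fun _ => L ^ (2 * k * (κ + 2 * δ)))) S := by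
    have : IntegrableOn (fun _ : ℝ => L ^ (2 * k * (κ + 2 * δ))) (Set.Icc T (2 * T)) := continuous_const.integrableOn_Icc
    exact (this.mono_set hSI).indicator hEm
  have j1 : IntegrableOn (fun t => L ^ (2 * δ * κ) * ‖zt t‖ ^ (2 * κ)) S := (hi _ (by positivity)).const_mul _
  have j2 : IntegrableOn (fun t => L ^ (-(2 * δ * (κ + 2 * δ))) * ‖zt t‖ ^ (2 * (κ + 2 * δ))) S := (hi _ (by positivity)).const_mul _
  have hint : ∫ t in S, ‖zt t‖ ^ (2 * k) ≤ (volume E).toReal * L ^ (2 * k * (κ + 2 * δ)) +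
      (L ^ (2 * δ * κ) * (∫ t in S, ‖zt t‖ ^ (2 * κ)) + L ^ (-(2 * δ * (κ + 2 * δ))) * ∫ t in S, ‖zt t‖ ^ (2 * (κ + 2 * δ))) := by
    have h5 := setIntegral_mono_on (hi (2 * k) (by positivity)) (hindi.add (j1.add j2)) (hSm T) hpt
    refine h5.trans (le_of_eq ?_)
    have e1 : ∫ t in S, (E.indicator (fun _ => L ^ (2 * k * (κ + 2 * δ))) t +
        (L ^ (2 * δ * κ) * ‖zt t‖ ^ (2 * κ) + L ^ (-(2 * δ * (κ + 2 * δ))) * ‖zt t‖ ^ (2 * (κ + 2 * δ)))) =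
        (∫ t in S, E.indicator (fun _ => L ^ (2 * k * (κ + 2 * δ))) t) +
        ∫ t in S, (L ^ (2 * δ * κ) * ‖zt t‖ ^ (2 * κ) + L ^ (-(2 * δ * (κ + 2 * δ))) * ‖zt t‖ ^ (2 * (κ + 2 * δ))) :=
      integral_add hindi (j1.add j2)
    have e2 : ∫ t in S, (L ^ (2 * δ * κ) * ‖zt t‖ ^ (2 * κ) + L ^ (-(2 * δ * (κ + 2 * δ))) * ‖zt t‖ ^ (2 * (κ + 2 * δ))) =
        (∫ t in S, L ^ (2 * δ * κ) * ‖zt t‖ ^ (2 * κ)) + ∫ t in S, L ^ (-(2 * δ * (κ + 2 * δ))) * ‖zt t‖ ^ (2 * (κ + 2 * δ)) :=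
      integral_add j1 j2
    refine Eq.trans ?_ (e1.trans ?_)
    · rfl
    · rw [e2, hind, integral_const_mul, integral_const_mul]
  have b2 : L ^ (2 * δ * κ) * (∫ t in S, ‖zt t‖ ^ (2 * κ)) ≤ C * (T * L ^ (k ^ 2 - δ ^ 2)) := by
    calc L ^ (2 * δ * κ) * (∫ t in S, ‖zt t‖ ^ (2 * κ)) ≤ L ^ (2 * δ * κ) * (C * (T * L ^ (κ ^ 2))) :=
          mul_le_mul_of_nonneg_left ((hmono _ (by positivity)).trans a2) (by positivity)
      _ = C * (T * (L ^ (2 * δ * κ) * L ^ (κ ^ 2))) := by ring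
      _ = _ := by
          rw [← Real.rpow_add hL]
          congr 3
          rw [hk]; ring
  have b3 : L ^ (-(2 * δ * (κ + 2 * δ))) * (∫ t in S, ‖zt t‖ ^ (2 * (κ + 2 * δ))) ≤ C * (T * L ^ (k ^ 2 - δ ^ 2)) := by
    calc L ^ (-(2 * δ * (κ + 2 * δ))) * (∫ t in S, ‖zt t‖ ^ (2 * (κ + 2 * δ)))
        ≤ L ^ (-(2 * δ * (κ + 2 * δ))) * (C * (T * L ^ ((κ + 2 * δ) ^ 2))) :=
          mul_le_mul_of_nonneg_left ((hmono _ (by positivity)).trans a3) (by positivity)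
      _ = C * (T * (L ^ (-(2 * δ * (κ + 2 * δ))) * L ^ ((κ + 2 * δ) ^ 2))) := by ring
      _ = _ := by
          rw [← Real.rpow_add hL]
          congr 3
          rw [hk]; ring
  have hsum : c * (T * L ^ (k ^ 2)) ≤ (volume E).toReal * L ^ (2 * k * (κ + 2 * δ)) + 2 * (C * (T * L ^ (k ^ 2 - δ ^ 2))) := by linarith
  have hsmall : 2 * (C * (T * L ^ (k ^ 2 - δ ^ 2))) ≤ c / 2 * (T * L ^ (k ^ 2)) := by
    have e1 : L ^ (k ^ 2) = L ^ (k ^ 2 - δ ^ 2) * L ^ (δ ^ 2) := by rw [← Real.rpow_add hL]; congr 1; ring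
    have h5 : 4 * C ≤ c * L ^ (δ ^ 2) := by
      rw [div_le_iff₀ hc] at hg1; linarith
    have h6 : 0 ≤ T * L ^ (k ^ 2 - δ ^ 2) := by positivity
    rw [e1]
    have := mul_le_mul_of_nonneg_right h5 h6
    linarith
  have hmain : c / 2 * (T * L ^ (k ^ 2)) ≤ (volume E).toReal * L ^ (2 * k * (κ + 2 * δ)) := by linarith
  rw [ENNReal.ofReal_le_iff_le_toReal hvol]
  have hP : 0 < L ^ (2 * k * (κ + 2 * δ)) := Real.rpow_pos_of_pos hL _
  refine le_of_mul_le_mul_right (le_trans ?_ hmain) hP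
  have h5 : T * L ^ (-κ ^ 2 - ε) * L ^ (2 * k * (κ + 2 * δ)) ≤ T * L ^ (k ^ 2 - ε / 2) := by
    rw [mul_assoc, ← Real.rpow_add hL]
    refine mul_le_mul_of_nonneg_left (Real.rpow_le_rpow_of_exponent_le hL1 ?_) hT0.le
    rw [hk]
    have : δ ≤ 1 / 2 := by linarith
    nlinarith
  refine h5.trans ?_
  have h6 : L ^ (k ^ 2) = L ^ (k ^ 2 - ε / 2) * L ^ (ε / 2) := by rw [← Real.rpow_add hL]; congr 1; ring
  rw [h6]
  have h7 : 1 ≤ c / 2 * L ^ (ε / 2) := by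
    rw [div_le_iff₀ hc] at hg2; linarith
  have h8 : 0 ≤ T * L ^ (k ^ 2 - ε / 2) := by positivity
  calc T * L ^ (k ^ 2 - ε / 2) = 1 * (T * L ^ (k ^ 2 - ε / 2)) := (one_mul _).symm
    _ ≤ (c / 2 * L ^ (ε / 2)) * (T * L ^ (k ^ 2 - ε / 2)) := mul_le_mul_of_nonneg_right h7 h8
    _ = _ := by ring


end

end Pool.Agent.U196.GP
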