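import Pool.Agent.U196.SH.Mass
import Pool.Agent.U196.UV.Gap

/-!
# Project GP (helper196): the mass of every Dirichlet polynomial inside the long gaps between the ordinates
-/

set_option autoImplicit false

namespace Pool.Agent.U196.GP

open Filter Topology MeasureTheory Complex
open Pool.Agent.Q97.UM
open Pool.Agent.U196.SN
open Pool.Agent.U196.SH (f_le_end f_le_mid)
open Pool.Agent.U196.UV (LargeAt gaps)

noncomputable section

/-- `t` lies in a gap between the ordinates of the nontrivial zeros of length at least `l`, at distance at least `h` from its ends -/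
def InGap (l h t : ℝ) : Prop := ∃ u : ℝ, u + h ≤ t ∧ t ≤ u + l - h ∧
  ∀ s : ℂ, riemannZeta s = 0 → 0 < s.re → s.re < 1 → s.im ≤ u ∨ u + l ≤ s.im

open scoped Classical in
/-- the ordinates before a long gap -/
def Ga (c T : ℝ) : Finset ℝ :=
  Finset.filter (fun γ : ℝ => LargeAt ((1 + c) * (2 * Real.pi / Real.log T)) γ) ((H370.Zf riemannZeta T (2 * T)).image Complex.im)

lemma Ga_mem {c T γ : ℝ} (hT : 1 ≤ T) (h : γ ∈ Ga c T) : T < γ ∧ γ ≤ 2 * T ∧ LargeAt ((1 + c) * (2 * Real.pi / Real.log T)) γ ∧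
    ∃ s : ℂ, riemannZeta s = 0 ∧ 0 < s.re ∧ s.re < 1 ∧ s.im = γ := by
  classical
  unfold Ga at h
  rw [Finset.mem_filter, Finset.mem_image] at h
  obtain ⟨⟨s, hs, hsγ⟩, h2⟩ := h
  rw [Pool.Agent.U196.UV.mem_Zf hT] at hs
  obtain ⟨a1, a2, a3, a4, a5⟩ := hs
  exact ⟨by rw [← hsγ]; exact a4, by rw [← hsγ]; exact a5, h2, s, a1, a2, a3, hsγ⟩

/-- the middle halves of the long gaps -/
def LS (c T : ℝ) : Set ℝ := ⋃ γ ∈ (Ga c T), (Set.Icc (γ + (1 + c) * (Real.pi / 2 / Real.log T)) (γ + 3 * ((1 + c) * (Real.pi / 2 / Real.log T))) ∩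
  Set.Icc T (2 * T))

lemma LS_meas (c T : ℝ) : MeasurableSet (LS c T) := by
  unfold LS
  exact Finset.measurableSet_biUnion _ fun γ _ => measurableSet_Icc.inter measurableSet_Icc

lemma LS_sub (c T : ℝ) : LS c T ⊆ Set.Icc T (2 * T) := by
  unfold LS
  intro t ht
  simp only [Set.mem_iUnion] at ht
  obtain ⟨γ, _, ht⟩ := ht
  exact ht.2

lemma LS_gap {c T : ℝ} (hc : 0 ≤ c) (hT : 16 ≤ T) {t : ℝ} (ht : t ∈ LS c T) :
    InGap ((1 + c) * (2 * Real.pi / Real.log T)) (Real.pi / 2 / Real.log T) t := by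
  unfold LS at ht
  simp only [Set.mem_iUnion] at ht
  obtain ⟨γ, hγ, ht, -⟩ := ht
  obtain ⟨-, -, h3, -⟩ := Ga_mem (by linarith) hγ
  have hL : 0 < Real.log T := Real.log_pos (by linarith)
  have hp : 0 < Real.pi / 2 / Real.log T := by have := Real.pi_pos; positivity
  have e : 2 * Real.pi / Real.log T = 4 * (Real.pi / 2 / Real.log T) := by ring
  have h1 : Real.pi / 2 / Real.log T ≤ (1 + c) * (Real.pi / 2 / Real.log T) := by nlinarith
  refine ⟨γ, by linarith [ht.1], ?_, fun s a b d => ?_⟩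
  · rw [e]
    have := ht.2
    linarith
  · rcases le_or_gt s.im γ with h | h
    · exact Or.inl h
    · exact Or.inr (h3 s a b d h)

open Classical in
/-- **the mass of every Dirichlet polynomial in the middle halves of the long gaps** -/
theorem long_mass : ∃ c θ : ℝ, 0 < c ∧ c ≤ 1 ∧ 0 < θ ∧ θ ≤ 1 / 40 ∧ ∀ᶠ T : ℝ in atTop,
    ∀ N : ℕ, (N : ℝ) ≤ T ^ θ → ∀ b : ℕ → ℂ, c / 10 * (T * N2 N b) ≤ ∫ t in LS c T, ‖dp N b t‖ ^ 2 := by
  obtain ⟨c, θ₁, hc, hc1, hθ₁, hθ₁', hg⟩ := gaps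
  obtain ⟨θ₂, hθ₂, hθ₂', hsamp⟩ := b_SAMP (1 / 20) (by norm_num)
  set θ : ℝ := min (min θ₁ θ₂) (c / 400) with hθ
  have hθ0 : 0 < θ := by positivity
  have hθc : θ ≤ c / 400 := min_le_right _ _
  have hθ40 : θ ≤ 1 / 40 := ((min_le_left _ _).trans (min_le_left _ _)).trans hθ₁'
  refine ⟨c, θ, hc, hc1, hθ0, hθ40, ?_⟩
  filter_upwards [hg, hsamp, tv hθ0 (by linarith), eventually_ge_atTop 16] with T h1 h1' h2 hT N hN b
  have hT1 : 1 ≤ T := by linarith
  have hL : 0 < Real.log T := Real.log_pos (by linarith)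
  have hpi := Real.pi_pos
  have a1 := (h1 N (hN.trans (Real.rpow_le_rpow_of_exponent_le hT1 ((min_le_left _ _).trans (min_le_left _ _)))) b).2
  have a1' := (h1' N (hN.trans (Real.rpow_le_rpow_of_exponent_le hT1 ((min_le_left _ _).trans (min_le_right _ _)))) b).2.2
  have a2 := h2 N hN b
  have hn : 0 ≤ N2 N b := Pool.Agent.Q98.UM.N2_nonneg _ _
  set f : ℝ → ℝ := fun t => ‖dp N b t‖ ^ 2 with hf
  set V := ∫ x in T..(2 * T), |dv N b x| with hV
  set G := Ga c T with hG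
  set h := (1 + c) * (Real.pi / 2 / Real.log T) with hh
  have hh0 : 0 < h := by positivity
  have he : (1 + c) * (2 * Real.pi / Real.log T) = 4 * h := by rw [hh]; ring
  have hc' : Continuous f := (dp_cont N b).norm.pow 2
  have hmem : ∀ γ ∈ G, T < γ ∧ γ ≤ 2 * T := fun γ hγ => ⟨(Ga_mem hT1 hγ).1, (Ga_mem hT1 hγ).2.1⟩
  -- separation
  have hsepG : ∀ γ ∈ G, ∀ γ' ∈ G, γ < γ' → γ + 4 * h ≤ γ' := by
    intro γ hγ γ' hγ' hlt
    obtain ⟨-, -, h3, -⟩ := Ga_mem hT1 hγ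
    obtain ⟨-, -, -, s, z1, z2, z3, z4⟩ := Ga_mem hT1 hγ'
    have := h3 s z1 z2 z3 (by rw [z4]; exact hlt)
    rw [z4, he] at this
    exact this
  set X := Real.log T * (T * N2 N b) with hX
  have hX0 : 0 ≤ X := by positivity
  have hsumG : c / 10 * X ≤ ∑ γ ∈ G, f γ := by
    have b1 : 1 / 10 * X ≤ ∑ s ∈ H370.Zf riemannZeta T (2 * T), (mz s : ℝ) * ‖dp N b s.im‖ ^ 2 := by
      have b2 := (abs_le.1 a1').1
      have b3 : 3 / 20 * X ≤ Real.log T / (2 * Real.pi) * (T * N2 N b) := by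
        have b4 : (3 / 20 : ℝ) ≤ 1 / (2 * Real.pi) := by
          rw [div_le_div_iff₀ (by norm_num) (by positivity)]
          have := Real.pi_lt_d2
          linarith
        calc 3 / 20 * X ≤ 1 / (2 * Real.pi) * X := mul_le_mul_of_nonneg_right b4 hX0
          _ = _ := by rw [hX]; ring
      have b5 : 1 / 20 * Real.log T * (T * N2 N b) = 1 / 20 * X := by rw [hX]; ring
      rw [b5] at b2
      linarith
    have b6 := mul_le_mul_of_nonneg_left b1 hc.le
    have b7 : c * (1 / 10 * X) = c / 10 * X := by ring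
    rw [b7] at b6
    exact b6.trans a1
  set G₁ := G.filter (fun γ => γ + 4 * h ≤ 2 * T) with hG₁
  set G₂ := G.filter (fun γ => ¬ γ + 4 * h ≤ 2 * T) with hG₂
  have hsplit : ∑ γ ∈ G, f γ = ∑ γ ∈ G₁, f γ + ∑ γ ∈ G₂, f γ :=
    (Finset.sum_filter_add_sum_filter_not G _ _).symm
  -- the last gap
  have hG2 : ∑ γ ∈ G₂, f γ ≤ |f (2 * T)| + V := by
    have hcard : G₂.card ≤ 1 := by
      rw [Finset.card_le_one]
      intro γ hγ γ' hγ'
      rw [hG₂, Finset.mem_filter] at hγ hγ'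
      by_contra hne
      rcases lt_or_gt_of_ne hne with hlt | hlt
      · exact hγ.2 ((hsepG γ hγ.1 γ' hγ'.1 hlt).trans (hmem γ' hγ'.1).2)
      · exact hγ'.2 ((hsepG γ' hγ'.1 γ hγ.1 hlt).trans (hmem γ hγ.1).2)
    have hV0 : 0 ≤ |f (2 * T)| + V := by
      have : 0 ≤ V := intervalIntegral.integral_nonneg (by linarith) fun x _ => abs_nonneg _
      positivity
    calc ∑ γ ∈ G₂, f γ ≤ ∑ γ ∈ G₂, (|f (2 * T)| + V) :=
          Finset.sum_le_sum fun γ hγ => f_le_end N b (hmem γ (Finset.mem_of_mem_filter γ hγ)).1.le (hmem γ (Finset.mem_of_mem_filter γ hγ)).2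
      _ = (G₂.card : ℝ) * (|f (2 * T)| + V) := by rw [Finset.sum_const, nsmul_eq_mul]
      _ ≤ 1 * (|f (2 * T)| + V) := mul_le_mul_of_nonneg_right (by exact_mod_cast hcard) hV0
      _ = _ := one_mul _
  -- disjointness
  have hsep : ∀ γ ∈ G₁, ∀ γ' ∈ G₁, γ ≠ γ' → γ + 4 * h ≤ γ' ∨ γ' + 4 * h ≤ γ := by
    intro γ hγ γ' hγ' hne
    rcases lt_or_gt_of_ne hne with hlt | hlt
    · exact Or.inl (hsepG γ (Finset.mem_of_mem_filter γ hγ) γ' (Finset.mem_of_mem_filter γ' hγ') hlt)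
    · exact Or.inr (hsepG γ' (Finset.mem_of_mem_filter γ' hγ') γ (Finset.mem_of_mem_filter γ hγ) hlt)
  have hI1 : ∑ γ ∈ G₁, ∫ t in (γ + h)..(γ + 3 * h), f t ≤ ∫ t in LS c T, f t := by
    have e1 : ∑ γ ∈ G₁, ∫ t in (γ + h)..(γ + 3 * h), f t = ∫ t in ⋃ γ ∈ G₁, Set.Ioc (γ + h) (γ + 3 * h), f t := by
      rw [integral_biUnion_finset]
      · exact Finset.sum_congr rfl fun γ _ => intervalIntegral.integral_of_le (by linarith)
      · exact fun γ _ => measurableSet_Ioc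
      · intro γ hγ γ' hγ' hne
        rw [Function.onFun, Set.disjoint_left]
        intro t ht ht'
        rcases hsep γ hγ γ' hγ' hne with h4 | h4
        · linarith [ht.2, ht'.1]
        · linarith [ht.1, ht'.2]
      · exact fun γ _ => (hc'.integrableOn_Icc).mono_set Set.Ioc_subset_Icc_self
    rw [e1]
    refine setIntegral_mono_set ?_ ?_ ?_
    · exact (hc'.integrableOn_Icc (a := T) (b := 2 * T)).mono_set (LS_sub _ _)
    · exact Eventually.of_forall fun t => by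
        simp only [hf, Pi.zero_apply]
        positivity
    · refine HasSubset.Subset.eventuallyLE ?_
      intro t ht
      simp only [Set.mem_iUnion] at ht
      obtain ⟨γ, hγ, ht⟩ := ht
      rw [hG₁, Finset.mem_filter] at hγ
      unfold LS
      simp only [Set.mem_iUnion]
      exact ⟨γ, hγ.1, ⟨ht.1.le, ht.2⟩, by linarith [(hmem γ hγ.1).1, ht.1], by linarith [hγ.2, ht.2]⟩
  have hI2 : ∑ γ ∈ G₁, ∫ t in γ..(γ + 4 * h), |dv N b t| ≤ V := by
    have hc2 : Continuous fun t => |dv N b t| := (dv_cont N b).abs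
    have e1 : ∑ γ ∈ G₁, ∫ t in γ..(γ + 4 * h), |dv N b t| = ∫ t in ⋃ γ ∈ G₁, Set.Ioc γ (γ + 4 * h), |dv N b t| := by
      rw [integral_biUnion_finset]
      · exact Finset.sum_congr rfl fun γ _ => intervalIntegral.integral_of_le (by linarith)
      · exact fun γ _ => measurableSet_Ioc
      · intro γ hγ γ' hγ' hne
        rw [Function.onFun, Set.disjoint_left]
        intro t ht ht'
        rcases hsep γ hγ γ' hγ' hne with h4 | h4
        · linarith [ht.2, ht'.1]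
        · linarith [ht.1, ht'.2]
      · exact fun γ _ => (hc2.integrableOn_Icc).mono_set Set.Ioc_subset_Icc_self
    rw [e1, hV, intervalIntegral.integral_of_le (by linarith)]
    refine setIntegral_mono_set ?_ ?_ ?_
    · exact (hc2.integrableOn_Icc).mono_set Set.Ioc_subset_Icc_self
    · exact Eventually.of_forall fun t => abs_nonneg _
    · refine HasSubset.Subset.eventuallyLE ?_
      intro t ht
      simp only [Set.mem_iUnion] at ht
      obtain ⟨γ, hγ, ht⟩ := ht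
      rw [hG₁, Finset.mem_filter] at hγ
      have h4 := hmem γ hγ.1
      exact ⟨by linarith [ht.1], by linarith [ht.2, hγ.2]⟩
  have hsum : 2 * h * ∑ γ ∈ G₁, f γ ≤ (∫ t in LS c T, f t) + 2 * h * V := by
    calc 2 * h * ∑ γ ∈ G₁, f γ = ∑ γ ∈ G₁, 2 * h * f γ := Finset.mul_sum _ _ _
      _ ≤ ∑ γ ∈ G₁, ((∫ t in (γ + h)..(γ + 3 * h), f t) + 2 * h * ∫ x in γ..(γ + 4 * h), |dv N b x|) :=
          Finset.sum_le_sum fun γ _ => f_le_mid N b hh0
      _ = ∑ γ ∈ G₁, (∫ t in (γ + h)..(γ + 3 * h), f t) + 2 * h * ∑ γ ∈ G₁, ∫ x in γ..(γ + 4 * h), |dv N b x| := by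
          rw [Finset.sum_add_distrib, Finset.mul_sum]
      _ ≤ _ := add_le_add hI1 (mul_le_mul_of_nonneg_left hI2 (by positivity))
  have hθX : 10 * θ * X ≤ c / 40 * X := mul_le_mul_of_nonneg_right (by linarith) hX0
  have hfe : 0 ≤ |f (2 * T)| := abs_nonneg _
  have a2' : |f (2 * T)| + V ≤ 10 * θ * X := a2
  have hV1 : V ≤ c / 40 * X := by linarith
  have h5 : c / 20 * X ≤ ∑ γ ∈ G₁, f γ - V := by linarith
  have h6 : 2 * h * (c / 20 * X) ≤ ∫ t in LS c T, f t := by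
    have := mul_le_mul_of_nonneg_left h5 (by positivity : 0 ≤ 2 * h)
    linarith
  refine le_trans ?_ h6
  have h7 : 2 * h * (c / 20 * X) = (1 + c) * Real.pi * (c / 20 * (T * N2 N b)) := by
    rw [hX, hh]
    field_simp
  rw [h7]
  have h8 : (2 : ℝ) ≤ (1 + c) * Real.pi := by
    have := Real.pi_gt_three
    nlinarith
  have h9 : 0 ≤ c / 20 * (T * N2 N b) := by positivity
  calc c / 10 * (T * N2 N b) = 2 * (c / 20 * (T * N2 N b)) := by ring
    _ ≤ _ := mul_le_mul_of_nonneg_right h8 h9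

end

end Pool.Agent.U196.GP
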