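import Pool.Agent.U196.GP.Princ
import Pool.Agent.U196.GP.Long
import Pool.Agent.U196.SH.Near
import Pool.Agent.U196.CL.Rsum

/-!
# Project GP (helper196): families of sets: long gaps, deviations of the number of zeros, with normal pair statistics
-/

set_option autoImplicit false

namespace Pool.Agent.U196.GP

open Filter Topology MeasureTheory Complex
open Pool.Agent.Q97.UM
open Pool.Agent.U196.SH
open Pool.Agent.U196.CL (Yn PhiN Yn_meas clt)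
open Pool.Agent.U85.Ml (Fw Clo)

noncomputable section

/-- Montgomery's law for the window `|γ - t| ≤ H / log T`, and a small gap in it -/
def Law (a ε H T t : ℝ) : Prop :=
  (∀ x : ℝ, ε ≤ x → x ≤ a → |(∫ α in (0 : ℝ)..x, Fw T H α t) - (1 + x ^ 2) / 2| ≤ ε) ∧
  Clo t (H / Real.log T) (0.825 * (2 * Real.pi / Real.log T))

theorem law_bad (a : ℝ) (ha : a < 1 / 2) {ε κ : ℝ} (hε : 0 < ε) (hκ : 0 < κ) :
    ∃ H₀ : ℝ, 3 ≤ H₀ ∧ ∀ H : ℝ, H₀ ≤ H → ∃ θ : ℝ, 0 < θ ∧ ∃ U : ℝ → Set ℝ, (∀ T, MeasurableSet (U T)) ∧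
      (∀ T, U T ⊆ Set.Icc T (2 * T)) ∧ (∀ T, ∀ t ∈ Set.Icc T (2 * T), t ∉ U T → Law a ε H T t) ∧
      ∀ᶠ T : ℝ in atTop, ∀ N : ℕ, (N : ℝ) ≤ T ^ θ → ∀ b : ℕ → ℂ, ∫ t in U T, ‖dp N b t‖ ^ 2 ≤ κ * (T * N2 N b) := by
  set ε₁ : ℝ := min ε (κ / 4) with hε₁
  have hε₁0 : 0 < ε₁ := by positivity
  obtain ⟨H₁, hH₁, h1⟩ := Pool.Agent.U85.Ml.cdf_all a ha ε₁ hε₁0
  obtain ⟨H₂, hH₂, h2⟩ := Pool.Agent.U85.Ml.micro_all (κ / 4) (by positivity)
  refine ⟨max (max H₁ H₂) 3, le_max_right _ _, fun H hH => ?_⟩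
  have hHH₁ : H₁ ≤ H := ((le_max_left _ _).trans (le_max_left _ _)).trans hH
  have hHH₂ : H₂ ≤ H := ((le_max_right _ _).trans (le_max_left _ _)).trans hH
  obtain ⟨θa, Ta, hθa, hTa, h1⟩ := h1 H hHH₁
  obtain ⟨θb, Tb, hθb, hTb, h2⟩ := h2 H hHH₂
  set θ₂ : ℝ := min (1 / 4) (min θa θb) with hθ₂
  have hθ₂0 : 0 < θ₂ := by positivity
  set A1 : ℝ → Set ℝ := fun T => {t : ℝ | t ∈ Set.Icc T (2 * T) ∧ ∃ x : ℝ, ε₁ ≤ x ∧ x ≤ a ∧
    ε₁ < |(∫ α in (0 : ℝ)..x, Fw T H α t) - (1 + x ^ 2) / 2|} with hA1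
  set A2 : ℝ → Set ℝ := fun T => {t : ℝ | t ∈ Set.Icc T (2 * T) ∧ ¬ Clo t (H / Real.log T) (0.825 * (2 * Real.pi / Real.log T))}
    with hA2
  have s1 : ∀ T, A1 T ⊆ Set.Icc T (2 * T) := fun T t ht => ht.1
  have s2 : ∀ T, A2 T ⊆ Set.Icc T (2 * T) := fun T t ht => ht.1
  have hhI : ∀ T (B : Set ℝ), hull T B ⊆ Set.Icc T (2 * T) := fun T B t ht => ht.2
  refine ⟨θ₂, hθ₂0, fun T => hull T (A1 T) ∪ hull T (A2 T), fun T => (hull_meas _ _).union (hull_meas _ _),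
    fun T => Set.union_subset (hhI _ _) (hhI _ _), ?_, ?_⟩
  · intro T t htI ht2
    refine ⟨fun x hx1 hx2 => ?_, ?_⟩
    · by_contra hc
      push Not at hc
      exact ht2 (Or.inl (hull_sub (s1 T) ⟨htI, x, (min_le_left _ _).trans hx1, hx2, lt_of_le_of_lt (min_le_left _ _) hc⟩))
    · by_contra hc
      exact ht2 (Or.inr (hull_sub (s2 T) ⟨htI, hc⟩))
  · filter_upwards [eventually_ge_atTop Ta, eventually_ge_atTop Tb, eventually_ge_atTop 16] with T hTa hTb hT N hN b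
    have hT1 : 1 ≤ T := by linarith
    have hTT : T ≤ 2 * T := by linarith
    have l2 : (N : ℝ) ≤ T ^ (1 / 4 : ℝ) := hN.trans (Real.rpow_le_rpow_of_exponent_le hT1 (min_le_left _ _))
    have l3 : (N : ℝ) ≤ T ^ θa := hN.trans (Real.rpow_le_rpow_of_exponent_le hT1 ((min_le_right _ _).trans (min_le_left _ _)))
    have l4 : (N : ℝ) ≤ T ^ θb := hN.trans (Real.rpow_le_rpow_of_exponent_le hT1 ((min_le_right _ _).trans (min_le_right _ _)))
    have m1 := h1 T hTa N l3 b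
    have m2 := (h2 T hTb).1 N l4 b
    have mv := (Pool.Agent.Q84.UM.t_MVL T hT N l2 b).2
    set f : ℝ → ℝ := fun t => ‖dp N b t‖ ^ 2 with hf
    have hf0 : ∀ t, 0 ≤ f t := fun t => by simp only [hf]; positivity
    have hc : Continuous f := (Pool.Agent.Q84.UM.t_DPM.2.2 N b 0).2.norm.pow 2
    have hi : IntegrableOn f (Set.Icc T (2 * T)) := hc.integrableOn_Icc
    rw [intervalIntegral.integral_of_le hTT, ← integral_Icc_eq_integral_Ioc] at mv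
    have hM0 : 0 ≤ ∫ t in Set.Icc T (2 * T), f t := integral_nonneg hf0
    have u1 : ∫ t in hull T (A1 T), f t ≤ κ / 2 * (T * N2 N b) := by
      refine (hull_int (s1 T) hf0 hc).trans (m1.trans ?_)
      calc ε₁ * ∫ t in Set.Icc T (2 * T), f t ≤ κ / 4 * (2 * T * N2 N b) :=
            mul_le_mul (min_le_right _ _) mv hM0 (by positivity)
        _ = _ := by ring
    have u2 : ∫ t in hull T (A2 T), f t ≤ κ / 2 * (T * N2 N b) := by
      refine (hull_int (s2 T) hf0 hc).trans (m2.trans ?_)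
      calc κ / 4 * ∫ t in Set.Icc T (2 * T), f t ≤ κ / 4 * (2 * T * N2 N b) :=
            mul_le_mul_of_nonneg_left mv (by positivity)
        _ = _ := by ring
    have e2 := int_union_le hf0 hi (hull_meas T (A1 T)) (hull_meas T (A2 T)) (hhI _ _) (hhI _ _)
    linarith

/-- removing a set of small mass -/
theorem minus {S U : ℝ → Set ℝ} {θ₁ θ₂ c : ℝ} (hθ₁ : 0 < θ₁) (hθ₂ : 0 < θ₂) (hSs : ∀ T, S T ⊆ Set.Icc T (2 * T))
    (hUm : ∀ T, MeasurableSet (U T)) (hUs : ∀ T, U T ⊆ Set.Icc T (2 * T))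
    (hm : HG S θ₁ c) (hU : ∀ᶠ T : ℝ in atTop, ∀ N : ℕ, (N : ℝ) ≤ T ^ θ₂ → ∀ b : ℕ → ℂ, ∫ t in U T, ‖dp N b t‖ ^ 2 ≤ c / 2 * (T * N2 N b)) :
    HG (fun T => S T \ U T) (min θ₁ θ₂) (c / 2) := by
  have _ := hθ₁
  have _ := hθ₂
  filter_upwards [hm, hU, eventually_ge_atTop 16] with T h1 h2 hT N hN b
  have hT1 : 1 ≤ T := by linarith
  have g1 := h1 N (hN.trans (Real.rpow_le_rpow_of_exponent_le hT1 (min_le_left _ _))) b
  have g2 := h2 N (hN.trans (Real.rpow_le_rpow_of_exponent_le hT1 (min_le_right _ _))) b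
  set f : ℝ → ℝ := fun t => ‖dp N b t‖ ^ 2 with hf
  have hf0 : ∀ t, 0 ≤ f t := fun t => by simp only [hf]; positivity
  have hc : Continuous f := (Pool.Agent.Q84.UM.t_DPM.2.2 N b 0).2.norm.pow 2
  have hi : IntegrableOn f (Set.Icc T (2 * T)) := hc.integrableOn_Icc
  have hsplit : (∫ t in S T ∩ U T, f t) + ∫ t in S T \ U T, f t = ∫ t in S T, f t :=
    integral_inter_add_sdiff (hUm T) (hi.mono_set (hSs T))
  have hle : ∫ t in S T ∩ U T, f t ≤ ∫ t in U T, f t :=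
    setIntegral_mono_set (hi.mono_set (hUs T)) (Eventually.of_forall hf0) (Eventually.of_forall Set.inter_subset_right)
  have hfin : c * (T * N2 N b) - c / 2 * (T * N2 N b) ≤ ∫ t in S T \ U T, f t := by linarith
  refine le_trans (le_of_eq ?_) hfin
  ring

/-- **long gaps** -/
theorem famL : ∃ c : ℝ, 0 < c ∧ c ≤ 1 ∧ ∀ a : ℝ, a < 1 / 2 → ∀ ε : ℝ, 0 < ε → ∃ H₀ : ℝ, 3 ≤ H₀ ∧ ∀ H : ℝ, H₀ ≤ H →
    ∃ θ c₀ : ℝ, 0 < θ ∧ 0 < c₀ ∧ ∃ S : ℝ → Set ℝ, (∀ T, MeasurableSet (S T)) ∧ (∀ T, S T ⊆ Set.Icc T (2 * T)) ∧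
      (∀ T : ℝ, 16 ≤ T → ∀ t ∈ S T, InGap ((1 + c) * (2 * Real.pi / Real.log T)) (Real.pi / 2 / Real.log T) t ∧ Law a ε H T t) ∧
      HG S θ c₀ := by
  obtain ⟨c, θ₁, hc, hc1, hθ₁, -, hm⟩ := long_mass
  refine ⟨c, hc, hc1, fun a ha ε hε => ?_⟩
  obtain ⟨H₀, hH₀, h⟩ := law_bad a ha hε (show 0 < c / 10 / 2 by positivity)
  refine ⟨H₀, hH₀, fun H hH => ?_⟩
  obtain ⟨θ₂, hθ₂, U, hUm, hUs, hUL, hU⟩ := h H hH
  refine ⟨min θ₁ θ₂, c / 10 / 2, by positivity, by positivity, fun T => LS c T \ U T, fun T => (LS_meas c T).diff (hUm T),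
    fun T => Set.sdiff_subset.trans (LS_sub c T), ?_, minus hθ₁ hθ₂ (LS_sub c) hUm hUs hm hU⟩
  intro T hT t ht
  exact ⟨LS_gap hc.le hT ht.1, hUL T t (LS_sub c T ht.1) ht.2⟩

lemma PhiN_lt {x y : ℝ} (h : x < y) : PhiN x < PhiN y := by
  unfold PhiN
  have hi : Integrable fun u : ℝ => Real.exp (-u ^ 2 / 2) := by
    have := integrable_exp_neg_mul_sq (show (0 : ℝ) < 1 / 2 by norm_num)
    refine this.congr (Eventually.of_forall fun u => ?_)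
    simp only
    congr 1
    ring
  have h1 := intervalIntegral.integral_Iic_sub_Iic hi.integrableOn hi.integrableOn (a := x) (b := y)
  have h2 : 0 < ∫ u in x..y, Real.exp (-u ^ 2 / 2) :=
    intervalIntegral.intervalIntegral_pos_of_pos (hi.intervalIntegrable) (fun u => Real.exp_pos _) h
  have h3 : 0 < (Real.sqrt (2 * Real.pi))⁻¹ := by
    have := Real.pi_pos
    positivity
  have h4 : ∫ u in Set.Iic x, Real.exp (-u ^ 2 / 2) < ∫ u in Set.Iic y, Real.exp (-u ^ 2 / 2) := by linarith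
  exact mul_lt_mul_of_pos_left h4 h3

/-- **deviations of the number of zeros** -/
theorem famF {x y : ℝ} (hxy : x < y) (a : ℝ) (ha : a < 1 / 2) {ε : ℝ} (hε : 0 < ε) : ∃ H₀ : ℝ, 3 ≤ H₀ ∧ ∀ H : ℝ, H₀ ≤ H →
    ∃ θ c₀ T₁ : ℝ, 0 < θ ∧ 0 < c₀ ∧ ∃ S : ℝ → Set ℝ, (∀ T, MeasurableSet (S T)) ∧ (∀ T, S T ⊆ Set.Icc T (2 * T)) ∧
      (∀ T : ℝ, T₁ ≤ T → ∀ t ∈ S T, x ≤ ((cnt t (H / Real.log T) : ℝ) - H / Real.pi) * (Real.pi / Real.sqrt (Real.log H)) ∧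
        ((cnt t (H / Real.log T) : ℝ) - H / Real.pi) * (Real.pi / Real.sqrt (Real.log H)) ≤ y ∧ Law a ε H T t) ∧
      HG S θ c₀ := by
  obtain ⟨D, hD⟩ : ∃ D : ℝ, D = PhiN y - PhiN x := ⟨_, rfl⟩
  have hD0 : 0 < D := by rw [hD]; linarith [PhiN_lt hxy]
  obtain ⟨H₁, hH₁, h1⟩ := clt (D / 4) (by positivity)
  obtain ⟨H₂, hH₂, h2⟩ := law_bad a ha hε (show 0 < D / 2 / 2 by positivity)
  refine ⟨max H₁ H₂, hH₂.trans (le_max_right _ _), fun H hH => ?_⟩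
  obtain ⟨θ₁, hθ₁, -, h1⟩ := h1 H ((le_max_left _ _).trans hH)
  obtain ⟨θ₂, hθ₂, U, hUm, hUs, hUL, hU⟩ := h2 H ((le_max_right _ _).trans hH)
  have hL := (Pool.Agent.Q150.UM.ev_log (H + 2)).and ((eventually_ge_atTop (16 : ℝ)).and (Pool.Agent.Q150.UM.ev_loglin (1 / 8) (by norm_num)))
  rw [Filter.eventually_atTop] at hL
  obtain ⟨T₁, hT₁⟩ := hL
  set J : ℝ → Set ℝ := fun T => Set.Ioc (T + 2 * Real.log T) (2 * T - 2 * Real.log T) with hJ
  set S : ℝ → Set ℝ := fun T => (J T ∩ {t | x < Yn H T t ∧ Yn H T t ≤ y}) ∩ Set.Icc T (2 * T) with hS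
  have hSm : ∀ T, MeasurableSet (S T) := fun T =>
    (measurableSet_Ioc.inter ((measurableSet_lt measurable_const (Yn_meas H T)).inter (measurableSet_le (Yn_meas H T) measurable_const))).inter
      measurableSet_Icc
  have hSs : ∀ T, S T ⊆ Set.Icc T (2 * T) := fun T t ht => ht.2
  have hm : HG S θ₁ (D / 2) := by
    filter_upwards [h1, eventually_ge_atTop T₁] with T h1 hT N hN b
    obtain ⟨hL, hT16, hTl⟩ := hT₁ T hT
    have hL0 : 0 < Real.log T := Real.log_pos (by linarith)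
    rcases Nat.eq_zero_or_pos N with rfl | hN1
    · have e1 : ∀ t, dp 0 b t = 0 := fun t => by unfold dp; simp
      have e2 : N2 0 b = 0 := by unfold N2; simp
      simp [e1, e2]
    have g1 := (abs_le.1 (h1 N hN1 hN b x)).2
    have g2 := (abs_le.1 (h1 N hN1 hN b y)).1
    set f : ℝ → ℝ := fun t => ‖dp N b t‖ ^ 2 with hf
    have hf0 : ∀ t, 0 ≤ f t := fun t => by simp only [hf]; positivity
    have hc : Continuous f := (Pool.Agent.Q84.UM.t_DPM.2.2 N b 0).2.norm.pow 2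
    have hJI : J T ⊆ Set.Icc T (2 * T) := by
      intro t ht
      exact ⟨by linarith [ht.1], by linarith [ht.2]⟩
    have hi : IntegrableOn f (J T) := (hc.integrableOn_Icc (a := T) (b := 2 * T)).mono_set hJI
    have e1 : J T ∩ {t | Yn H T t ≤ y} = (J T ∩ {t | Yn H T t ≤ x}) ∪ S T := by
      ext t
      simp only [Set.mem_inter_iff, Set.mem_union, Set.mem_ofPred_eq, hS]
      constructor
      · rintro ⟨a1, a2⟩
        rcases le_or_gt (Yn H T t) x with h | h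
        · exact Or.inl ⟨a1, h⟩
        · exact Or.inr ⟨⟨a1, h, a2⟩, hJI a1⟩
      · rintro (⟨a1, a2⟩ | ⟨⟨a1, a2, a3⟩, -⟩)
        · exact ⟨a1, a2.trans hxy.le⟩
        · exact ⟨a1, a3⟩
    have e2 : ∫ t in J T ∩ {t | Yn H T t ≤ y}, f t = (∫ t in J T ∩ {t | Yn H T t ≤ x}, f t) + ∫ t in S T, f t := by
      rw [e1, setIntegral_union ?_ (hSm T) (hi.mono_set Set.inter_subset_left) ((hc.integrableOn_Icc).mono_set (hSs T))]
      rw [Set.disjoint_left]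
      rintro t ⟨-, ht1⟩ ⟨⟨-, ht2, -⟩, -⟩
      exact absurd ht1 (not_le.2 ht2)
    have e3 : (∫ t in S T, f t) = (∫ t in J T ∩ {t | Yn H T t ≤ y}, f t) - ∫ t in J T ∩ {t | Yn H T t ≤ x}, f t := by linarith
    rw [e3]
    have e4 : D / 2 * (T * N2 N b) = (PhiN y * (T * N2 N b) - D / 4 * (T * N2 N b)) - (PhiN x * (T * N2 N b) + D / 4 * (T * N2 N b)) := by
      rw [hD]; ring
    rw [e4]
    linarith
  refine ⟨min θ₁ θ₂, D / 2 / 2, T₁, by positivity, by positivity, fun T => S T \ U T, fun T => (hSm T).diff (hUm T),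
    fun T => Set.sdiff_subset.trans (hSs T), ?_, minus hθ₁ hθ₂ hSs hUm hUs hm hU⟩
  intro T hT t ht
  obtain ⟨hL, hT16, hTl⟩ := hT₁ T hT
  have hL0 : 0 < Real.log T := Real.log_pos (by linarith)
  have hH0 : 0 < H := by linarith [hH₂, (le_max_right H₁ H₂).trans hH]
  obtain ⟨⟨⟨htJ, ht1, ht2⟩, ht3⟩, htU⟩ := ht
  have hHL : H / Real.log T ≤ 1 := by
    rw [div_le_one hL0]
    linarith
  have e : (cnt t (H / Real.log T) : ℝ) = Nw T (H / Real.log T) t :=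
    cnt_eq (by linarith) (by linarith [htJ.1]) (by linarith [htJ.2])
  rw [e]
  exact ⟨ht1.le, ht2, hUL T t ht3 htU⟩

end

end Pool.Agent.U196.GP
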