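import Pool.Agent.U761.SZ.LD

/-!
# Project GP (helper196): helper761's resonators directed at a complex number, of arbitrarily small length

The proof is that of `Pool.Agent.U761.SZ.tilt`, with the length as a parameter.
-/

set_option autoImplicit false

namespace Pool.Agent.U196.GP

open Filter Topology MeasureTheory Complex
open Pool.Agent.Q97.UM Pool.Agent.Q247.UM Pool.Agent.Q241.UM
open Pool.Agent.Q98.UM (dp_prc supp_zero)
open Pool.Agent.Q149.UM (zp norm_zp_le norm_zp_cube sum_le_Z3 Z3 Z3_nonneg)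

open Pool.Agent.U761.SZ

noncomputable section

/-- the relative second moment of `log ζ - z` for the resonator directed at `z` -/
theorem tiltG : ∃ C : ℝ, 0 < C ∧ ∀ θ' : ℝ, 0 < θ' → ∃ θ c₀ : ℝ, 0 < θ ∧ θ ≤ θ' ∧ 0 < c₀ ∧ ∀ᶠ T : ℝ in atTop, ∀ z : ℂ, 1 ≤ ‖z‖ →
    ‖z‖ ≤ c₀ * Real.sqrt (Real.log T / Real.log (Real.log T)) → ∃ (N : ℕ) (r : ℕ → ℂ), (N : ℝ) ≤ T ^ θ ∧ θ ≤ 1 / 8 ∧
      (∀ n, r n ≠ 0 → 1 ≤ n ∧ n ≤ N) ∧ 1 ≤ N2 N r ∧
      IntervalIntegrable (fun t => ‖Lz t - z‖ ^ 2 * ‖dp N r t‖ ^ 2) volume T (2 * T) ∧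
      ∫ t in T..(2 * T), ‖Lz t - z‖ ^ 2 * ‖dp N r t‖ ^ 2 ≤ C * Real.log (Real.log T) * (T * N2 N r) ∧
      N2 (N * N) (cv r r) ≤ Real.exp (16 * (‖z‖ ^ 2 / Real.log (2 + Real.log T / ((1 + ‖z‖ ^ 2) * Real.log (Real.log T))))) := by
  classical
  have hMV : S_MVL := Pool.Agent.Q84.UM.t_MVL
  have hD : S_DPM := Pool.Agent.Q84.UM.t_DPM
  obtain ⟨θ₁, δ₀, hθ₁, hδ₀, hTHS⟩ := THS 2
  obtain ⟨δ, hδd⟩ : ∃ δ : ℝ, δ = min δ₀ (1 / 16) := ⟨_, rfl⟩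
  have hδ : 0 < δ := by rw [hδd]; positivity
  have hδ1 : δ ≤ δ₀ := by rw [hδd]; exact min_le_left _ _
  have hδ2 : δ ≤ 1 / 16 := by rw [hδd]; exact min_le_right _ _
  obtain ⟨C₁, hC₁, hTHS⟩ := hTHS δ hδ hδ1
  obtain ⟨C₀', hM⟩ := Pool.Agent.Erdos456.Mert.mertens_inv
  obtain ⟨C₃, hC₃⟩ : ∃ C₃ : ℝ, C₃ = |C₀'| := ⟨_, rfl⟩
  have hC₃0 : 0 ≤ C₃ := by rw [hC₃]; positivity
  have hZ := Z3_nonneg
  refine ⟨4 * (C₁ + 2 * (6 + 8 * (1 + C₃)) + 2 + 2 * (4 / 3 * Z3) ^ 2) + 1, by positivity, fun θ' hθ' => ?_⟩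
  obtain ⟨θ, hθd⟩ : ∃ θ : ℝ, θ = min (min θ₁ δ) θ' := ⟨_, rfl⟩
  have hθ : 0 < θ := by rw [hθd]; positivity
  have hθ1 : θ ≤ θ₁ := by rw [hθd]; exact (min_le_left _ _).trans (min_le_left _ _)
  have hθδ : θ ≤ δ := by rw [hθd]; exact (min_le_left _ _).trans (min_le_right _ _)
  have hθ2 : θ ≤ θ' := by rw [hθd]; exact min_le_right _ _
  obtain ⟨c₀, hc₀, hPS⟩ := pset θ hθ (by linarith)
  refine ⟨θ, c₀, hθ, hθ2, hc₀, ?_⟩
  filter_upwards [hTHS, Real.tendsto_log_atTop.eventually hPS, growth2 δ hδ] with T hTHS hPS hgr z hz1 hz2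
  obtain ⟨hT16, hX3, hll, hL3⟩ := hgr
  have hT0 : 0 < T := by linarith
  have hT1 : 1 ≤ T := by linarith
  obtain ⟨P, K, N, μ, hP, hμ, hVS, hK, hK1, hx, hQ, hN, hN1, hNT, hPT, hcost⟩ := hPS ‖z‖ hz1 hz2
  have hexpT : Real.exp (θ * Real.log T) = T ^ θ := by
    rw [Real.rpow_def_of_pos hT0, mul_comm]
  rw [hexpT] at hNT hPT
  obtain ⟨V, hV⟩ : ∃ V : ℝ, V = ‖z‖ := ⟨_, rfl⟩
  have hV0 : 0 < V := by rw [hV]; linarith
  rw [← hV] at hVS hK hcost hz1 hz2 ⊢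
  -- the phase
  obtain ⟨σ, hσd⟩ : ∃ σ : ℂ, σ = (starRingEnd ℂ) z / V := ⟨_, rfl⟩
  have hVc : (V : ℂ) ≠ 0 := by exact_mod_cast hV0.ne'
  have hσ : ‖σ‖ = 1 := by
    rw [hσd, norm_div, RCLike.norm_conj, ← hV, norm_real, Real.norm_of_nonneg hV0.le, div_self hV0.ne']
  have hσz : (starRingEnd ℂ) σ * V = z := by
    rw [hσd, map_div₀, Complex.conj_conj, Complex.conj_ofReal, div_mul_cancel₀ _ hVc]
  -- the resonator
  obtain ⟨r₁, hr₁⟩ : ∃ r₁ : ℕ → ℂ, r₁ = rs P K μ := ⟨_, rfl⟩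
  obtain ⟨r, hr⟩ : ∃ r : ℕ → ℂ, r = Pool.Agent.U761.SZ.tw σ r₁ := ⟨_, rfl⟩
  have hr₁N : ∀ n, r₁ n ≠ 0 → 1 ≤ n ∧ n ≤ N := by
    intro n hn
    rw [hr₁] at hn
    obtain ⟨⟨h3, h4⟩, h5⟩ := rs_ne hn
    have h6 := hN n.primeFactors (Finset.mem_powerset.2 h4) h5
    rw [Nat.prod_primeFactors_of_squarefree h3] at h6
    exact ⟨Nat.one_le_iff_ne_zero.2 h3.ne_zero, h6⟩
  have hrN : ∀ n, r n ≠ 0 → 1 ≤ n ∧ n ≤ N := by
    intro n hn
    refine hr₁N n fun h => hn ?_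
    rw [hr]
    unfold Pool.Agent.U761.SZ.tw
    rw [h, mul_zero]
  have hN2r : N2 N r = N2 N r₁ := by rw [hr]; exact tw_N2 hσ N r₁
  have hn1 : 1 ≤ N2 N r := by
    rw [hN2r, hr₁]
    exact one_le_N2 hN1
  obtain ⟨n2, hn2⟩ : ∃ n2 : ℝ, n2 = N2 N r := ⟨_, rfl⟩
  have hn20 : 0 < n2 := by rw [hn2]; linarith
  obtain ⟨X, hX⟩ : ∃ X : ℕ, X = ⌊T ^ δ⌋₊ := ⟨_, rfl⟩
  rw [← hX] at hX3
  have hXle : (X : ℝ) ≤ T ^ δ := by rw [hX]; exact Nat.floor_le (by positivity)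
  have hX1 : 1 ≤ X := by omega
  have hPX : ∀ p ∈ P, p ≤ X := by
    intro p hp
    rw [hX]
    exact Nat.le_floor ((hPT p hp).trans (Real.rpow_le_rpow_of_exponent_le hT1 hθδ))
  have hXT : (X : ℝ) ≤ T := hXle.trans (by
    calc T ^ δ ≤ T ^ (1 : ℝ) := Real.rpow_le_rpow_of_exponent_le hT1 (by linarith)
      _ = T := Real.rpow_one T)
  have hsumX : ∑ p ∈ (Finset.Icc 1 X).filter Nat.Prime, (1 : ℝ) / p ≤ (1 + C₃) * Real.log (Real.log T) := by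
    have h1 := (abs_le.1 (hM X hX3)).2
    have h2 : (0 : ℝ) < Real.log X := Real.log_pos (by
      have : (3 : ℝ) ≤ X := by exact_mod_cast hX3
      linarith)
    have h3 : Real.log (Real.log X) ≤ Real.log (Real.log T) :=
      Real.log_le_log h2 (Real.log_le_log (by exact_mod_cast (by omega : 0 < X)) hXT)
    have h4 : C₀' ≤ C₃ := by rw [hC₃]; exact le_abs_self _
    nlinarith
  -- the two auxiliary polynomials
  obtain ⟨G, hG⟩ : ∃ G : ℕ → ℂ, G = fun n => cv (prc X) r n - (starRingEnd ℂ) σ * V * r n := ⟨_, rfl⟩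
  have hprs : ∀ n, prc X n ≠ 0 → 1 ≤ n ∧ n ≤ X := by
    intro n hn
    have := prc_ne hn
    exact ⟨this.1.one_lt.le, this.2⟩
  have hsqs : ∀ n, sqc X n ≠ 0 → 1 ≤ n ∧ n ≤ X ^ 2 := by
    intro n hn
    obtain ⟨p, hp, hpX, rfl⟩ := sqc_ne hn
    exact ⟨Nat.one_le_pow _ _ hp.pos, Nat.pow_le_pow_left hpX 2⟩
  have hGeq : ∀ t, dp (X * N) G t = (dp X (prc X) t - z) * dp N r t := by
    intro t
    have e1 := hD.1 X N (prc X) r t (supp_zero hprs) (supp_zero hrN)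
    have e2 : dp (X * N) r t = dp N r t := dp_len (Nat.le_mul_of_pos_left N (by omega)) hrN t
    have e3 : dp (X * N) G t = dp (X * N) (cv (prc X) r) t - (starRingEnd ℂ) σ * V * dp (X * N) r t := by
      unfold dp
      rw [Finset.mul_sum, ← Finset.sum_sub_distrib]
      refine Finset.sum_congr rfl fun n _ => ?_
      rw [hG]
      ring
    rw [e3, e2, ← e1, hσz]
    ring
  have hHeq : ∀ t, dp (X ^ 2 * N) (cv (sqc X) r) t = dp (X ^ 2) (sqc X) t * dp N r t := fun t =>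
    (hD.1 (X ^ 2) N (sqc X) r t (supp_zero hsqs) (supp_zero hrN)).symm
  -- lengths
  have hT4 : ∀ {M : ℕ} {e : ℝ}, (M : ℝ) ≤ T ^ e → e ≤ 1 / 4 → (M : ℝ) ≤ T ^ (1 / 4 : ℝ) := fun h1 h2 =>
    h1.trans (Real.rpow_le_rpow_of_exponent_le hT1 h2)
  have hXN : ((X * N : ℕ) : ℝ) ≤ T ^ (1 / 4 : ℝ) := by
    refine hT4 (e := δ + θ) ?_ (by linarith)
    push_cast
    rw [Real.rpow_add hT0]
    exact mul_le_mul hXle hNT (Nat.cast_nonneg _) (by positivity)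
  have hX2N : ((X ^ 2 * N : ℕ) : ℝ) ≤ T ^ (1 / 4 : ℝ) := by
    refine hT4 (e := δ + δ + θ) ?_ (by linarith)
    push_cast
    rw [Real.rpow_add hT0, Real.rpow_add hT0, sq]
    exact mul_le_mul (mul_le_mul hXle hXle (Nat.cast_nonneg _) (by positivity)) hNT (Nat.cast_nonneg _) (by positivity)
  have hNT4 : (N : ℝ) ≤ T ^ (1 / 4 : ℝ) := hT4 hNT (by linarith)
  -- the estimates
  have I1 : ∫ t in T..(2 * T), ‖dp (X * N) G t‖ ^ 2 ≤ 2 * T * ((6 + 8 * (1 + C₃)) * Real.log (Real.log T) * n2) := by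
    refine ((hMV T hT16 (X * N) hXN G).2).trans (mul_le_mul_of_nonneg_left ?_ (by positivity))
    have h1 : N2 (X * N) G = N2 (X * N) (fun n => cv (prc X) r₁ n - (V : ℝ) * r₁ n) := by
      rw [hG, hr]
      exact tw_res hσ (X * N) X V r₁
    rw [h1, hr₁]
    have h2 := res2 hP (N := N) (X := X) hμ hVS hK hK1 hx hQ hN hPX
    refine h2.trans ?_
    rw [← hr₁, ← hN2r, ← hn2]
    refine mul_le_mul_of_nonneg_right ?_ hn20.le
    nlinarith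
  have I2 : ∫ t in T..(2 * T), ‖dp (X ^ 2 * N) (cv (sqc X) r) t‖ ^ 2 ≤ 2 * T * n2 := by
    refine ((hMV T hT16 (X ^ 2 * N) hX2N _).2).trans (mul_le_mul_of_nonneg_left ?_ (by positivity))
    rw [hn2, hN2r, hr, tw_sqc hσ, hr₁]
    refine N2_sqc fun n hn => ?_
    rw [← hr₁] at hn
    exact (hr₁N n hn).2
  have I3 : ∫ t in T..(2 * T), ‖dp N r t‖ ^ 2 ≤ 2 * T * n2 := by
    rw [hn2]
    exact (hMV T hT16 N hNT4 r).2
  obtain ⟨hTI, hTB⟩ := hTHS N (hNT.trans (Real.rpow_le_rpow_of_exponent_le hT1 hθ1)) r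
  rw [← hX, ← hn2] at hTB
  rw [← hX] at hTI
  have hsub : Set.uIcc T (2 * T) ⊆ Set.uIcc (T / 2) (4 * T) := by
    rw [Set.uIcc_of_le (by linarith), Set.uIcc_of_le (by linarith)]
    exact Set.Icc_subset_Icc (by linarith) (by linarith)
  have hTI' := hTI.mono_set hsub
  have I4 : ∫ t in T..(2 * T), ‖Lz t - LE X t‖ ^ 2 * ‖dp N r t‖ ^ 2 ≤ C₁ * T * n2 := by
    refine le_trans ?_ hTB
    refine intervalIntegral.integral_mono_interval (by linarith) (by linarith) (by linarith) ?_ hTI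
    exact Eventually.of_forall fun t => by positivity
  -- assembly
  have cB : Continuous fun t => ‖dp N r t‖ ^ 2 := (dp_cont N r).norm.pow 2
  have cG : Continuous fun t => ‖dp (X * N) G t‖ ^ 2 := (dp_cont _ G).norm.pow 2
  have cH : Continuous fun t => ‖dp (X ^ 2 * N) (cv (sqc X) r) t‖ ^ 2 := (dp_cont _ _).norm.pow 2
  have hpt : ∀ t, ‖Lz t - z‖ ^ 2 * ‖dp N r t‖ ^ 2 ≤ 4 * (‖Lz t - LE X t‖ ^ 2 * ‖dp N r t‖ ^ 2 + ‖dp (X * N) G t‖ ^ 2 +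
      ‖dp (X ^ 2 * N) (cv (sqc X) r) t‖ ^ 2 + (4 / 3 * Z3) ^ 2 * ‖dp N r t‖ ^ 2) := by
    intro t
    have h1 := LE_prc X t
    have h2 : ‖Lz t - z‖ ≤ ‖Lz t - LE X t‖ + ‖dp X (prc X) t - z‖ + ‖dp (X ^ 2) (sqc X) t‖ + 4 / 3 * Z3 := by
      have e : Lz t - z = (Lz t - LE X t) + (dp X (prc X) t - z) + dp (X ^ 2) (sqc X) t / 2 +
          (LE X t - dp X (prc X) t - dp (X ^ 2) (sqc X) t / 2) := by ring
      rw [e]
      refine (norm_add_le _ _).trans (add_le_add ((norm_add_le _ _).trans (add_le_add (norm_add_le _ _) ?_)) h1)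
      rw [norm_div, Complex.norm_ofNat]
      have := norm_nonneg (dp (X ^ 2) (sqc X) t)
      linarith
    have h3 : ‖Lz t - z‖ ^ 2 ≤ 4 * (‖Lz t - LE X t‖ ^ 2 + ‖dp X (prc X) t - z‖ ^ 2 + ‖dp (X ^ 2) (sqc X) t‖ ^ 2 +
        (4 / 3 * Z3) ^ 2) := (pow_le_pow_left₀ (norm_nonneg _) h2 2).trans (four_sq _ _ _ _)
    have h4 := mul_le_mul_of_nonneg_right h3 (sq_nonneg ‖dp N r t‖)
    refine h4.trans (le_of_eq ?_)
    rw [hGeq, hHeq, norm_mul, norm_mul]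
    ring
  have hint : IntervalIntegrable (fun t => 4 * (‖Lz t - LE X t‖ ^ 2 * ‖dp N r t‖ ^ 2 + ‖dp (X * N) G t‖ ^ 2 +
      ‖dp (X ^ 2 * N) (cv (sqc X) r) t‖ ^ 2 + (4 / 3 * Z3) ^ 2 * ‖dp N r t‖ ^ 2)) volume T (2 * T) :=
    (((hTI'.add (cG.intervalIntegrable _ _)).add (cH.intervalIntegrable _ _)).add
      ((cB.const_mul _).intervalIntegrable _ _)).const_mul 4
  have hmeas : Measurable fun t => ‖Lz t - z‖ ^ 2 * ‖dp N r t‖ ^ 2 :=
    (((Lz_meas.sub measurable_const).norm).pow_const 2).mul cB.measurable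
  have hI : IntervalIntegrable (fun t => ‖Lz t - z‖ ^ 2 * ‖dp N r t‖ ^ 2) volume T (2 * T) := by
    refine hint.mono_fun' hmeas.aestronglyMeasurable (Eventually.of_forall fun t => ?_)
    show ‖‖Lz t - z‖ ^ 2 * ‖dp N r t‖ ^ 2‖ ≤ _
    rw [Real.norm_of_nonneg (by positivity)]
    exact hpt t
  refine ⟨N, r, hNT, by linarith, hrN, hn1, hI, ?_, ?_⟩
  · have h1 := intervalIntegral.integral_mono_on (by linarith) hI hint fun t _ => hpt t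
    refine h1.trans ?_
    rw [intervalIntegral.integral_const_mul,
      intervalIntegral.integral_add ((hTI'.add (cG.intervalIntegrable _ _)).add (cH.intervalIntegrable _ _))
        ((cB.const_mul _).intervalIntegrable _ _),
      intervalIntegral.integral_add (hTI'.add (cG.intervalIntegrable _ _)) (cH.intervalIntegrable _ _),
      intervalIntegral.integral_add hTI' (cG.intervalIntegrable _ _), intervalIntegral.integral_const_mul, ← hn2]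
    have h2 : (4 / 3 * Z3) ^ 2 * (∫ t in T..(2 * T), ‖dp N r t‖ ^ 2) ≤ (4 / 3 * Z3) ^ 2 * (2 * T * n2) :=
      mul_le_mul_of_nonneg_left I3 (by positivity)
    have hTn : 0 < T * n2 := by positivity
    obtain ⟨ll, hlld⟩ : ∃ ll : ℝ, ll = Real.log (Real.log T) := ⟨_, rfl⟩
    rw [← hlld] at I1 hll ⊢
    have k1 : C₁ * T * n2 ≤ C₁ * ll * (T * n2) := by
      have : C₁ * (T * n2) * 1 ≤ C₁ * (T * n2) * ll := mul_le_mul_of_nonneg_left hll (by positivity)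
      linarith
    have k2 : 2 * T * n2 ≤ 2 * ll * (T * n2) := by nlinarith
    have k3 : (4 / 3 * Z3) ^ 2 * (2 * T * n2) ≤ (4 / 3 * Z3) ^ 2 * (2 * ll * (T * n2)) :=
      mul_le_mul_of_nonneg_left k2 (by positivity)
    have k4 : 0 ≤ ll * (T * n2) := by positivity
    have k5 : 2 * T * ((6 + 8 * (1 + C₃)) * ll * n2) = 2 * (6 + 8 * (1 + C₃)) * (ll * (T * n2)) := by ring
    rw [k5] at I1
    have k6 : (4 / 3 * Z3) ^ 2 * (2 * ll * (T * n2)) = 2 * (4 / 3 * Z3) ^ 2 * (ll * (T * n2)) := by ring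
    rw [k6] at k3
    linarith
  · have h1 : N2 (N * N) (cv r r) ≤ Real.exp (4 * μ ^ 2 * ∑ p ∈ P, (1 : ℝ) / p) := by
      rw [hr, tw_four hσ, hr₁]
      refine N2_four hP (N := N) fun n hn => ?_
      rw [← hr₁] at hn
      exact (hr₁N n hn).2
    exact h1.trans (Real.exp_le_exp.2 hcost)

end

end Pool.Agent.U196.GP
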